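import Pool.Agent.U396.RJ.Preempt

set_option autoImplicit false

/-!
# MP_41b9a7_lc, Q1: a deterministic algorithm of ratio below 2 in the preemptive model

There is a deterministic online algorithm for scheduling with rejection on three machines in the
preemptive model whose cost is, for every input, at most `1.99` times the optimal offline
preemptive cost. The algorithm never splits a job.
-/

namespace Pool.Agent.Results.MP_41b9a7_lc.PreemptiveBelowTwo

open Pool.Agent.K7.H50.RJ Pool.Agent.U396.RJ

/-- Some deterministic online algorithm is `1.99`-competitive in the preemptive model; it gives a
single slot to every accepted job. -/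
theorem result : ∃ A : List Job → Option (Finset Slot),
    (∀ l σ, A l = some σ → σ.card = 1) ∧ CompetitiveP A (199 / 100) := by
  refine ⟨algP, ?_, competitive_algP⟩
  intro l σ h
  unfold algP at h
  rcases h1 : l.getLast? with _ | j
  · rw [h1] at h
    simp at h
  · rw [h1] at h
    simp only at h
    rcases h2 : dec (run l.dropLast) j with _ | i
    · rw [h2] at h
      simp at h
    · rw [h2, Option.map_some] at h
      rw [← Option.some.inj h]
      exact Finset.card_singleton _

end Pool.Agent.Results.MP_41b9a7_lc.PreemptiveBelowTwo
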